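import Pool.Agent.H.MP_b101b2_co.F

namespace Pool.Agent.Results.MP_b101b2_co.Mate

/-- The generalized Johnson graph on the `k`-subsets of a `2k`-set: distinct subsets are
adjacent iff their intersection has even size `s` with `2 ≤ s ≤ k - 1`. -/
def J (k : ℕ) : SimpleGraph {A : Finset (Fin (2 * k)) // A.card = k} where
  Adj A B := A ≠ B ∧ 2 ≤ (A.1 ∩ B.1).card ∧ (A.1 ∩ B.1).card ≤ k - 1 ∧ Even (A.1 ∩ B.1).card
  symm := ⟨fun A B h => by
    rw [Finset.inter_comm]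
    exact ⟨h.1.symm, h.2⟩⟩
  loopless := ⟨fun A h => h.1 rfl⟩

open Classical in
theorem result (k : ℕ) (hk : 4 ≤ k) :
    ∃ G : SimpleGraph {A : Finset (Fin (2 * k)) // A.card = k},
      (G.adjMatrix ℝ).charpoly = ((J k).adjMatrix ℝ).charpoly ∧ IsEmpty (G ≃g J k) := by
  apply Pool.Agent.H.MP_b101b2_co.main (Fintype.card_fin _) hk (J k) (fun _ _ => Iff.rfl)
  intro w hw
  obtain rfl | h5 : k = 4 ∨ 5 ≤ k := by omega
  · exact Pool.Agent.H.MP_b101b2_co.O_four w hw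
  · exact Pool.Agent.H.MP_b101b2_co.O_big (Fintype.card_fin _) h5 w

end Pool.Agent.Results.MP_b101b2_co.Mate
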